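import Pool.Agent.Helper732.SInf.Hard

/-!
# Topological isomorphism of (abelian) pro-countable closed subgroups of `S_∞` is analytic complete

Proof idea.  Let `E` be an analytic equivalence relation on Cantor space and let
`f : ℕ^ℕ → 2^ℕ × 2^ℕ` be continuous with range `E`.  For `x ∈ 2^ℕ` and `k ∈ ℕ` consider the walks
`x|k = u_0, u_1, …, u_m = v` in `2^k` whose `t`-th step is witnessed by some `γ_t ∈ ℕ^ℕ` with
`f(γ_t)|k = (u_{t-1}, u_t)` or `(u_t, u_{t-1})`; such a walk has the closeness function
`a = min (k, A(γ_m) ∘ … ∘ A(γ_1))`, where `A(γ)(i) = ∑_{j ≤ i} (γ(j) + 1)`.  Take countably many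
copies of the cyclic group of order `ℓ(k,v)^k` (distinct primes `ℓ(k,v)`) for each such pair
`(v, a)`, with the filtration whose `i`-th group is generated by `ℓ^{a(i)}`; `G_x` is the restricted
product of all these filtered groups.  If `x E y` then the Schröder–Bernstein theorem gives a
bijection between the two index sets with a uniform modulus, hence `G_x ≅ G_y`.  Conversely a
topological isomorphism gives, for all `k`, walks from `y|k` to `x|k` with uniformly bounded
closeness functions, and an ultrafilter limit shows `y E x`.
-/

set_option autoImplicit false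

namespace Pool.Agent.Results.MP_52b1ec_lc.ProCountableComplete

open Pool.Agent.Helper732.SInf

universe u

/-- **Q1 and Q2.**
(1) For every class `C` of closed subgroups of `S_∞` containing all pro-countable ones, every
analytic equivalence relation on a standard Borel space is Borel reducible to `≅_C`, and `≅_C` is
not Borel reducible to graph isomorphism.
(2) In particular this holds for some Borel invariant class (all closed subgroups), which answers
Q1.
(3) In particular this holds for the class of pro-countable groups, which answers Q2. -/
theorem result :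
    (∀ C : Set ClosedSub, (∀ G, IsProCountable G → G ∈ C) →
      AnalyticHard.{u} (TopIsoOn C) ∧ ¬ BorelReducible (TopIsoOn C) GraphIso) ∧
    (∃ C : Set ClosedSub, MeasurableSet C ∧ IsInvariant C ∧
      AnalyticHard.{u} (TopIsoOn C) ∧ ¬ BorelReducible (TopIsoOn C) GraphIso) ∧
    (AnalyticHard.{u} (TopIsoOn {G | IsProCountable G}) ∧
      ¬ BorelReducible (TopIsoOn {G | IsProCountable G}) GraphIso) := by
  have h1 : ∀ C : Set ClosedSub, (∀ G, IsProCountable G → G ∈ C) →
      AnalyticHard.{u} (TopIsoOn C) ∧ ¬ BorelReducible (TopIsoOn C) GraphIso := fun C hC =>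
    ⟨analyticHard_of_proCountable C hC,
      not_reducible_of_hard (analyticHard_of_proCountable.{0} C hC)⟩
  exact ⟨h1, ⟨Set.univ, MeasurableSet.univ, fun _ _ _ _ => trivial, h1 _ fun _ _ => trivial⟩,
    h1 _ fun _ hG => hG⟩

end Pool.Agent.Results.MP_52b1ec_lc.ProCountableComplete
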